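import Pool.Agent.Helper98.EY.StmtsC

/-! The smallest capacity of a slow bond is attained in the bulk. -/

set_option autoImplicit false

namespace Pool.Agent.Helper98.EX

open MeasureTheory ProbabilityTheory Filter Topology

theorem exb_tb (N : ℕ) (r l r' l' : ℕ → ℝ) (b b' q : ℕ)
    (h1 : ∀ d, d + 1 < q → r (b - 1 - d) = r' (b' - 1 - d))
    (h2 : ∀ d, d < q → l (b - d) = l' (b' - d))
    (h3 : ∀ d, d + 1 < q → r (b + d + 1) = r' (b' + d + 1))
    (h4 : ∀ d, d < q → l (b + d) = l' (b' + d)) :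
    ∀ i h g, h < q → g < q → tb N r l b q i h g = tb N r' l' b' q i h g := by
  intro i
  induction i with
  | zero => intro h g _ _; rfl
  | succ i ih =>
    intro h g hh hg
    simp only [tb]
    have e1 : (if h + 1 < q then r (b - 1 - h) * (tb N r l b q i (h + 1) g - tb N r l b q i h g)
        else 0) = (if h + 1 < q then r' (b' - 1 - h) *
          (tb N r' l' b' q i (h + 1) g - tb N r' l' b' q i h g) else 0) := by
      by_cases hc : h + 1 < q
      · rw [if_pos hc, if_pos hc, h1 h hc, ih (h + 1) g hc hg, ih h g hh hg]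
      · rw [if_neg hc, if_neg hc]
    have e2 : (if 0 < h then l (b - h) * (tb N r l b q i (h - 1) g - tb N r l b q i h g)
        else 0) = (if 0 < h then l' (b' - h) *
          (tb N r' l' b' q i (h - 1) g - tb N r' l' b' q i h g) else 0) := by
      by_cases hc : 0 < h
      · rw [if_pos hc, if_pos hc, h2 h hh, ih (h - 1) g (by omega) hg, ih h g hh hg]
      · rw [if_neg hc, if_neg hc]
    have e3 : (if g + 1 < q then r (b + g + 1) * (tb N r l b q i h (g + 1) - tb N r l b q i h g)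
        else 0) = (if g + 1 < q then r' (b' + g + 1) *
          (tb N r' l' b' q i h (g + 1) - tb N r' l' b' q i h g) else 0) := by
      by_cases hc : g + 1 < q
      · rw [if_pos hc, if_pos hc, h3 g hc, ih h (g + 1) hh hc, ih h g hh hg]
      · rw [if_neg hc, if_neg hc]
    have e4 : (if 0 < g then l (b + g) * (tb N r l b q i h (g - 1) - tb N r l b q i h g)
        else 0) = (if 0 < g then l' (b' + g) *
          (tb N r' l' b' q i h (g - 1) - tb N r' l' b' q i h g) else 0) := by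
      by_cases hc : 0 < g
      · rw [if_pos hc, if_pos hc, h4 g hg, ih h (g - 1) hh (by omega), ih h g hh hg]
      · rw [if_neg hc, if_neg hc]
    have e5 : l b = l' b' := by
      have := h4 0 (by omega)
      rw [add_zero, add_zero] at this
      exact this
    rw [e1, e2, e3, e4, e5, ih h g hh hg]

theorem exb_measr (x : ℕ) : Measurable (fun e : ℕ → ℝ => rE e x) := measurable_pi_apply (x - 1)

theorem exb_measl (N x : ℕ) : Measurable (fun e : ℕ → ℝ => mE N e x) := by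
  show Measurable (fun e : ℕ → ℝ => max (1 - e x) ((N : ℝ) ^ (-100 : ℝ)))
  exact (measurable_const.sub (measurable_pi_apply x)).max measurable_const

theorem exb_meastb (N b q : ℕ) : ∀ i h g,
    Measurable (fun e : ℕ → ℝ => tb N (rE e) (mE N e) b q i h g) := by
  intro i
  induction i with
  | zero => intro h g; exact measurable_const
  | succ i ih =>
    intro h g
    simp only [tb]
    have key : ∀ (c : Prop) [Decidable c] (a : (ℕ → ℝ) → ℝ) (h' g' : ℕ), Measurable a →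
        Measurable (fun e : ℕ → ℝ => if c then
          a e * (tb N (rE e) (mE N e) b q i h' g' - tb N (rE e) (mE N e) b q i h g) else 0) := by
      intro c _ a h' g' ha
      by_cases hc : c
      · simp only [if_pos hc]
        exact ha.mul ((ih h' g').sub (ih h g))
      · simp only [if_neg hc]
        exact measurable_const
    have key2 : ∀ (c : Prop) [Decidable c], Measurable (fun e : ℕ → ℝ => if c then
          mE N e b * tb N (rE e) (mE N e) b q i h g else 0) := by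
      intro c _
      by_cases hc : c
      · simp only [if_pos hc]
        exact (exb_measl N b).mul (ih h g)
      · simp only [if_neg hc]
        exact measurable_const
    exact (ih h g).add (measurable_const.mul (((((key _ _ _ _ (exb_measr _)).add
      (key _ _ _ _ (exb_measl N _))).add (key _ _ _ _ (exb_measr _))).add
      (key _ _ _ _ (exb_measl N _))).sub (key2 _)))

theorem exb_nonneg (N b q : ℕ) (r l : ℕ → ℝ) (hN : 2 ≤ N) (hr : ∀ x, 0 ≤ r x ∧ r x ≤ 1)
    (hl : ∀ x, 0 ≤ l x ∧ l x ≤ 1) : ∀ i h g, 0 ≤ tb N r l b q i h g := by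
  intro i
  induction i with
  | zero => intro h g; exact zero_le_one
  | succ i ih =>
    intro h g
    simp only [tb]
    have hT := ih h g
    set T := tb N r l b q i h g with hTd
    have key : ∀ (c : Prop) [Decidable c] (a : ℝ) (h' g' : ℕ), 0 ≤ a → a ≤ 1 →
        -T ≤ (if c then a * (tb N r l b q i h' g' - T) else 0) := by
      intro c _ a h' g' ha0 ha1
      by_cases hc : c
      · rw [if_pos hc]
        nlinarith [mul_nonneg ha0 (ih h' g')]
      · rw [if_neg hc]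
        linarith
    have k1 := key (h + 1 < q) (r (b - 1 - h)) (h + 1) g (hr _).1 (hr _).2
    have k2 := key (0 < h) (l (b - h)) (h - 1) g (hl _).1 (hl _).2
    have k3 := key (g + 1 < q) (r (b + g + 1)) h (g + 1) (hr _).1 (hr _).2
    have k4 := key (0 < g) (l (b + g)) h (g - 1) (hl _).1 (hl _).2
    have hsum : -(4 * T) ≤ (if h + 1 < q then r (b - 1 - h) * (tb N r l b q i (h + 1) g - T) else 0) +
        (if 0 < h then l (b - h) * (tb N r l b q i (h - 1) g - T) else 0) +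
        (if g + 1 < q then r (b + g + 1) * (tb N r l b q i h (g + 1) - T) else 0) +
        (if 0 < g then l (b + g) * (tb N r l b q i h (g - 1) - T) else 0) -
        (if h = 0 ∧ g = 0 then l b * T else 0) := by
      by_cases hc : h = 0 ∧ g = 0
      · rw [if_pos hc, if_neg (show ¬ 0 < h by omega), if_neg (show ¬ 0 < g by omega)]
        have := mul_le_mul_of_nonneg_right (hl b).2 hT
        linarith
      · rw [if_neg hc]
        linarith
    have hN' : (2 : ℝ) ≤ N := by exact_mod_cast hN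
    have hp : (0 : ℝ) < 1 / (2 * N) := by positivity
    have h4 : (1 / (2 * (N : ℝ))) * (4 * T) ≤ T := by
      have h5 : (1 / (2 * (N : ℝ))) * 4 ≤ 1 := by
        rw [div_mul_eq_mul_div, div_le_one (by positivity)]
        linarith
      nlinarith
    have h6 := mul_le_mul_of_nonneg_left hsum hp.le
    linarith

theorem exb_ratel {N : ℕ} (hN : 1 ≤ N) {e : ℕ → ℝ} (he : ∀ i, 0 < e i ∧ e i ≤ 1) (x : ℕ) :
    0 ≤ mE N e x ∧ mE N e x ≤ 1 := by
  show 0 ≤ max (1 - e x) ((N : ℝ) ^ (-100 : ℝ)) ∧ max (1 - e x) ((N : ℝ) ^ (-100 : ℝ)) ≤ 1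
  have hN' : (1 : ℝ) ≤ N := by exact_mod_cast hN
  refine ⟨le_max_of_le_left (by linarith [(he x).2]), max_le (by linarith [(he x).1]) ?_⟩
  exact Real.rpow_le_one_of_one_le_of_nonpos hN' (by norm_num)

theorem exb_cpbpos {N w b : ℕ} (hN : 2 ≤ N) {e : ℕ → ℝ} (he : ∀ i, 0 < e i ∧ e i ≤ 1) :
    0 < cpb N (rE e) (mE N e) w b := by
  unfold cpb kap
  have hN' : (2 : ℝ) ≤ N := by exact_mod_cast hN
  have hL : 0 < Real.log N := Real.log_pos (by linarith)
  have hm : 0 < msN N := by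
    unfold msN
    apply Nat.ceil_pos.2
    positivity
  have hnn := exb_nonneg N b (w + 2) (rE e) (mE N e) hN (fun x => ⟨(he _).1.le, (he _).2⟩)
    (exb_ratel (by omega) he)
  refine mul_pos (he _).1 (div_pos ?_ (by positivity))
  refine lt_of_lt_of_le zero_lt_one ?_
  have := Finset.single_le_sum (f := fun i => tb N (rE e) (mE N e) b (w + 2) i 0 0)
    (fun i _ => hnn i 0 0) (Finset.mem_range.2 hm)
  exact this

/-- the functional -/
noncomputable def exbF (N w : ℕ) (e : ℕ → ℝ) : ℝ :=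
  if rE e (w + 2) * N ≤ Real.log N ^ 465 then (cpb N (rE e) (mE N e) w (w + 2))⁻¹ else 0

theorem exb_Fmeas (N w : ℕ) : Measurable (exbF N w) := by
  unfold exbF
  refine Measurable.ite ?_ ?_ measurable_const
  · exact measurableSet_le ((exb_measr _).mul measurable_const) measurable_const
  · refine Measurable.inv ?_
    unfold cpb kap
    refine (exb_measr _).mul (Measurable.div_const ?_ _)
    exact Finset.measurable_fun_sum _ (fun i _ => exb_meastb N (w + 2) (w + 2) i 0 0)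

theorem exb_cpb (N w : ℕ) (r l r' l' : ℕ → ℝ) (b b' : ℕ) (h0 : r b = r' b')
    (h1 : ∀ d, d + 1 < w + 2 → r (b - 1 - d) = r' (b' - 1 - d))
    (h2 : ∀ d, d < w + 2 → l (b - d) = l' (b' - d))
    (h3 : ∀ d, d + 1 < w + 2 → r (b + d + 1) = r' (b' + d + 1))
    (h4 : ∀ d, d < w + 2 → l (b + d) = l' (b' + d)) :
    cpb N r l w b = cpb N r' l' w b' := by
  unfold cpb kap
  rw [h0]
  congr 2
  apply Finset.sum_congr rfl
  intro i _
  exact exb_tb N r l r' l' b b' (w + 2) h1 h2 h3 h4 i 0 0 (by omega) (by omega)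

theorem exb_Floc (N w : ℕ) (e e' : ℕ → ℝ) (h : ∀ i, i < 2 * (w + 2) → e i = e' i) :
    exbF N w e = exbF N w e' := by
  have hr : ∀ x, x < 2 * (w + 2) + 1 → 1 ≤ x → rE e x = rE e' x := fun x hx hx1 =>
    h (x - 1) (by omega)
  have hl : ∀ x, x < 2 * (w + 2) → mE N e x = mE N e' x := fun x hx => by
    show max (1 - e x) _ = max (1 - e' x) _
    rw [h x hx]
  unfold exbF
  rw [hr (w + 2) (by omega) (by omega), exb_cpb N w (rE e) (mE N e) (rE e') (mE N e') (w + 2) (w + 2)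
    (hr _ (by omega) (by omega)) (fun d hd => hr _ (by omega) (by omega))
    (fun d hd => hl _ (by omega)) (fun d hd => hr _ (by omega) (by omega))
    (fun d hd => hl _ (by omega))]

theorem exb_shift (N w z : ℕ) (x : ℕ → ℝ) :
    exbF N w (fun i => x (z + i)) =
      if rE x (z + (w + 2)) * N ≤ Real.log N ^ 465 then
        (cpb N (rE x) (mE N x) w (z + (w + 2)))⁻¹ else 0 := by
  have hr : ∀ y, 1 ≤ y → rE (fun i => x (z + i)) y = rE x (z + y) := fun y hy => by
    show x (z + (y - 1)) = x (z + y - 1)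
    congr 1
    omega
  have hl : ∀ y, mE N (fun i => x (z + i)) y = mE N x (z + y) := fun y => rfl
  unfold exbF
  rw [hr (w + 2) (by omega), exb_cpb N w (rE (fun i => x (z + i))) (mE N (fun i => x (z + i)))
    (rE x) (mE N x) (w + 2) (z + (w + 2)) (hr _ (by omega))
    (fun d hd => by rw [hr _ (by omega)]; congr 1; omega)
    (fun d hd => by rw [hl]; congr 1; omega)
    (fun d hd => by rw [hr _ (by omega)]; congr 1; omega)
    (fun d hd => by rw [hl]; congr 1; omega)]

theorem exb_prob {Ω : Type} [MeasurableSpace Ω] (P : Measure Ω) (X : ℕ → Ω → ℝ)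
    (hI : IIDE P X) {θ : ℝ} (hθ1 : θ < 1) (hM : Mom P X 1 ≤ ENNReal.ofReal θ) (j : ℕ) (t : ℝ)
    (ht0 : 0 < t) (ht : t ≤ 1 / 2) :
    P {ω | X j ω ≤ t} ≤ ENNReal.ofReal (2 * t) := by
  have e1 : P {ω | X j ω ≤ t} = P {ω | X 0 ω ≤ t} :=
    (hI.ident j).measure_mem_eq (s := Set.Iic t) measurableSet_Iic
  rw [e1]
  have hD : (0 : ℝ) < (1 - t) / t := div_pos (by linarith) ht0
  have hsub : {ω | X 0 ω ≤ t} ⊆
      {ω | ENNReal.ofReal ((1 - t) / t) ≤ ENNReal.ofReal (((1 - X 0 ω) / X 0 ω) ^ (1 : ℝ))} := by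
    intro ω hω
    have hω' : X 0 ω ≤ t := hω
    have hp := (hI.rng 0 ω).1
    show ENNReal.ofReal ((1 - t) / t) ≤ ENNReal.ofReal (((1 - X 0 ω) / X 0 ω) ^ (1 : ℝ))
    rw [Real.rpow_one]
    apply ENNReal.ofReal_le_ofReal
    rw [div_le_div_iff₀ ht0 hp]
    nlinarith
  refine (measure_mono hsub).trans ?_
  have hmeas : Measurable (fun ω => ENNReal.ofReal (((1 - X 0 ω) / X 0 ω) ^ (1 : ℝ))) := by
    have hx := hI.meas 0
    exact ((((measurable_const.sub hx).div hx).pow_const (1 : ℝ))).ennreal_ofReal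
  refine (meas_ge_le_lintegral_div hmeas.aemeasurable (ENNReal.ofReal_pos.2 hD).ne'
    ENNReal.ofReal_ne_top).trans ?_
  have h2 : (∫⁻ ω, ENNReal.ofReal (((1 - X 0 ω) / X 0 ω) ^ (1 : ℝ)) ∂P) ≤ ENNReal.ofReal 1 :=
    hM.trans (ENNReal.ofReal_le_ofReal hθ1.le)
  refine (ENNReal.div_le_div_right h2 _).trans ?_
  rw [← ENNReal.ofReal_div_of_pos hD]
  apply ENNReal.ofReal_le_ofReal
  rw [div_le_iff₀ hD, mul_div_assoc', le_div_iff₀ ht0]
  nlinarith

theorem st_EXB (hexg : ST_EXG) : ST_EXB := by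
  intro Ω _ P X θ hI hθ hθ1 hM ηp hηp
  obtain ⟨c2, hc0, hc4, hEX⟩ := hexg Ω P X hI ηp hηp
  refine ⟨c2, hc0, hc4, ?_⟩
  obtain ⟨N1, hN1⟩ := hEX (1 / 2) (by norm_num)
  have hlog : Tendsto (fun N : ℕ => Real.log (N : ℝ)) atTop atTop :=
    Real.tendsto_log_atTop.comp tendsto_natCast_atTop_atTop
  have e1 : ∀ᶠ N : ℕ in atTop, 3 ≤ Real.log (N : ℝ) := hlog.eventually_ge_atTop _
  have e2 : ∀ᶠ N : ℕ in atTop, 2 ≤ N := eventually_ge_atTop 2
  have e3 : ∀ᶠ N : ℕ in atTop, ‖Real.log (N : ℝ) ^ (465 : ℝ)‖ ≤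
      1 / 2 * ‖(N : ℝ) ^ (1 / 2 : ℝ)‖ :=
    tendsto_natCast_atTop_atTop.eventually
      ((isLittleO_log_rpow_rpow_atTop 465 (by norm_num : (0 : ℝ) < 1 / 2)).bound (by norm_num))
  obtain ⟨N3, hN3⟩ := eventually_atTop.1 (e1.and (e2.and e3))
  refine ⟨max N1 N3, fun N w hN hw hwL => ?_⟩
  obtain ⟨hL3, hN2, hpow⟩ := hN3 N ((le_max_right _ _).trans hN)
  have hNN1 : N1 ≤ N := (le_max_left _ _).trans hN
  have hN2' : (2 : ℝ) ≤ N := by exact_mod_cast hN2
  have hNpos : (0 : ℝ) < N := by linarith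
  set L := Real.log (N : ℝ) with hLdef
  have hL0 : 0 < L := by linarith
  have hL465 : L ^ 465 ≤ 1 / 2 * (N : ℝ) ^ (1 / 2 : ℝ) := by
    have h1 : L ^ (465 : ℝ) = L ^ 465 := by
      rw [show (465 : ℝ) = ((465 : ℕ) : ℝ) by norm_num, Real.rpow_natCast]
    rw [h1, Real.norm_of_nonneg (by positivity), Real.norm_of_nonneg (by positivity)] at hpow
    exact hpow
  have hx : ∀ ω i, 0 < EE X ω i ∧ EE X ω i ≤ 1 := fun ω i => hI.rng i ω
  have hR : ((2 * (w + 2) : ℕ) : ℝ) ≤ L ^ 9 := by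
    push_cast
    have h1 : (9 : ℝ) ≤ L ^ 2 := by nlinarith
    have h2 : L ^ 9 = L ^ 2 * L ^ 7 := by ring
    have h3 : (3 : ℝ) ^ 7 ≤ L ^ 7 := by gcongr
    have h4 : (4 : ℝ) ≤ L ^ 7 := le_trans (by norm_num) h3
    have h5 : L ^ 2 * 4 ≤ L ^ 2 * L ^ 7 := mul_le_mul_of_nonneg_left h4 (by positivity)
    rw [h2]
    linarith
  have ht0 : 0 < L ^ 465 / N := by positivity
  have hsq : (N : ℝ) ^ (1 / 2 : ℝ) ≤ N := by
    calc (N : ℝ) ^ (1 / 2 : ℝ) ≤ (N : ℝ) ^ (1 : ℝ) :=
          Real.rpow_le_rpow_of_exponent_le (by linarith) (by norm_num)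
      _ = N := Real.rpow_one _
  have ht : L ^ 465 / N ≤ 1 / 2 := by
    rw [div_le_iff₀ hNpos]
    linarith
  have hF : P {ω | 0 < exbF N w (fun i => X i ω)} ≤ ENNReal.ofReal ((N : ℝ) ^ (-(1 / 2) : ℝ)) := by
    have hsub : {ω | 0 < exbF N w (fun i => X i ω)} ⊆ {ω | X (w + 1) ω ≤ L ^ 465 / N} := by
      intro ω hω
      have hω' : 0 < exbF N w (fun i => X i ω) := hω
      show X (w + 1) ω ≤ L ^ 465 / N
      unfold exbF at hω'
      by_cases hc : rE (fun i => X i ω) (w + 2) * N ≤ Real.log N ^ 465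
      · rw [le_div_iff₀ hNpos]
        exact hc
      · rw [if_neg hc] at hω'
        exact absurd hω' (lt_irrefl _)
    refine (measure_mono hsub).trans ((exb_prob P X hI hθ1 hM (w + 1) _ ht0 ht).trans ?_)
    apply ENNReal.ofReal_le_ofReal
    have h1 : (N : ℝ) ^ (-(1 / 2) : ℝ) = (N : ℝ) ^ (1 / 2 : ℝ) / N := by
      rw [show (-(1 / 2) : ℝ) = 1 / 2 - 1 by norm_num, Real.rpow_sub hNpos, Real.rpow_one]
    rw [h1, ← mul_div_assoc]
    apply div_le_div_of_nonneg_right _ hNpos.le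
    linarith
  have hE := hN1 N (2 * (w + 2)) (exbF N w) 0 hNN1 hR (exb_Fmeas N w) (exb_Floc N w) hF
  refine (measure_mono ?_).trans hE
  intro ω hω
  have hω' : ¬ ∀ b : ℕ, w + 2 ≤ b → b + (w + 2) ≤ N →
      rE (EE X ω) b * N ≤ Real.log N ^ 465 → ∃ b' : ℕ, c2 * N ≤ b' ∧ (b' : ℝ) ≤ (1 - c2) * N ∧
      rE (EE X ω) b' * N ≤ Real.log N ^ 465 ∧
      cpb N (rE (EE X ω)) (mE N (EE X ω)) w b' ≤ cpb N (rE (EE X ω)) (mE N (EE X ω)) w b := hω
  push Not at hω'
  obtain ⟨b, hb1, hb2, hb3, hb4⟩ := hω'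
  have hsh : ∀ z : ℕ, exbF N w (fun i => X (z + i) ω) =
      if rE (EE X ω) (z + (w + 2)) * N ≤ Real.log N ^ 465 then
        (cpb N (rE (EE X ω)) (mE N (EE X ω)) w (z + (w + 2)))⁻¹ else 0 :=
    fun z => exb_shift N w z (EE X ω)
  refine ⟨b - (w + 2), by omega, ?_, ?_⟩
  · rw [hsh, show b - (w + 2) + (w + 2) = b by omega, if_pos hb3]
    exact inv_pos.2 (exb_cpbpos hN2 (hx ω))
  · rintro ⟨z', hz1, hz2, hz3⟩
    rw [hsh, hsh, show b - (w + 2) + (w + 2) = b by omega, if_pos hb3] at hz3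
    have hpb : 0 < (cpb N (rE (EE X ω)) (mE N (EE X ω)) w b)⁻¹ := inv_pos.2 (exb_cpbpos hN2 (hx ω))
    by_cases hc : rE (EE X ω) (z' + (w + 2)) * N ≤ Real.log N ^ 465
    · rw [if_pos hc] at hz3
      have h1 := hb4 (z' + (w + 2)) (by
        push_cast
        have : (0 : ℝ) ≤ w := Nat.cast_nonneg _
        linarith) (by
        push_cast at hz2 ⊢
        have : (0 : ℝ) ≤ w := Nat.cast_nonneg _
        linarith) hc
      have h2 : cpb N (rE (EE X ω)) (mE N (EE X ω)) w (z' + (w + 2)) ≤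
          cpb N (rE (EE X ω)) (mE N (EE X ω)) w b :=
        (inv_le_inv₀ (exb_cpbpos hN2 (hx ω)) (exb_cpbpos hN2 (hx ω))).1 hz3
      exact absurd h1 (not_lt.2 h2)
    · rw [if_neg hc] at hz3
      linarith

end Pool.Agent.Helper98.EX
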