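import Pool.Agent.Helper97.EY.GPOIN2

/-! Poincare inequality of the nearest neighbour exclusion in a closed window. -/

set_option autoImplicit false

namespace Pool.Agent.Helper98.EX

open Finset

/-- the mean field bound for subsets of a finite set of sites -/
theorem gp_mf (h : ST_MFVAR) (I : Finset ℕ) (j : ℕ) (ω : ℕ → ℝ) (hω : ∀ i, 0 < ω i)
    (F : Finset ℕ → ℝ) :
    ∑ S ∈ powersetCard j I, ∑ T ∈ powersetCard j I,
      (∏ i ∈ S, ω i) * (∏ i ∈ T, ω i) * (F S - F T) ^ 2 ≤
    (∑ S ∈ powersetCard j I, ∏ i ∈ S, ω i) *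
      ∑ S ∈ powersetCard j I, ∑ x ∈ S, ∑ y ∈ I \ S,
        gpK (∏ i ∈ S, ω i) (∏ i ∈ insert y (S.erase x), ω i) *
          (F S - F (insert y (S.erase x))) ^ 2 := by
  set e : {i // i ∈ I} ↪ ℕ := Function.Embedding.subtype _ with he
  have h0 := h {i // i ∈ I} (fun v => ω v.1) j (fun S => F (S.map e)) (fun v => hω v.1)
  have hI : (univ : Finset {i // i ∈ I}).map e = I := by
    ext i
    simp [he]
  have hpw : powersetCard j I = (powersetCard j (univ : Finset {i // i ∈ I})).map
      (mapEmbedding e).toEmbedding := by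
    rw [← powersetCard_map, hI]
  have hsum : ∀ g : Finset ℕ → ℝ, ∑ S ∈ powersetCard j I, g S =
      ∑ S ∈ powersetCard j (univ : Finset {i // i ∈ I}), g (S.map e) := by
    intro g
    rw [hpw, sum_map]
    rfl
  have hw : ∀ S : Finset {i // i ∈ I},
      wset (fun v : {i // i ∈ I} => ω v.1) S = ∏ i ∈ S.map e, ω i := by
    intro S
    rw [prod_map]
    rfl
  have hc : ∀ S : Finset {i // i ∈ I}, I \ S.map e = Sᶜ.map e := by
    intro S
    ext i
    constructor
    · intro hi
      rw [mem_sdiff] at hi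
      rw [mem_map]
      refine ⟨⟨i, hi.1⟩, ?_, rfl⟩
      rw [mem_compl]
      intro h1
      exact hi.2 (mem_map.2 ⟨_, h1, rfl⟩)
    · intro hi
      obtain ⟨v, hv, rfl⟩ := mem_map.1 hi
      rw [mem_sdiff]
      refine ⟨v.2, ?_⟩
      intro h1
      obtain ⟨v', hv', h2⟩ := mem_map.1 h1
      rw [e.injective h2] at hv'
      exact (mem_compl.1 hv) hv'
  have hm : ∀ (S : Finset {i // i ∈ I}) (x y : {i // i ∈ I}),
      (insert y (S.erase x)).map e = insert (e y) ((S.map e).erase (e x)) := by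
    intro S x y
    rw [map_insert, map_erase]
  rw [hsum, hsum, hsum]
  simp only [hsum, hc, sum_map, ← hm, ← hw]
  exact h0

/-- configuration with the particles of the window at `S` -/
def gpT {N : ℕ} (A B : ℕ) (η0 : Cfg N) (S : Finset ℕ) : Cfg N :=
  fun i => if A ≤ i.val ∧ i.val < B then decide (i.val ∈ S) else η0 i

theorem gp_occT {N A B : ℕ} (hB : B ≤ N) (η0 : Cfg N) (S : Finset ℕ) (i : ℕ) :
    occ (gpT A B η0 S) i = if A ≤ i ∧ i < B then decide (i ∈ S) else occ η0 i := by
  unfold occ gpT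
  by_cases hi : i < N
  · rw [dif_pos hi, dif_pos hi]
  · rw [dif_neg hi, dif_neg hi, if_neg (by omega)]

theorem gp_ext {N : ℕ} {η ξ : Cfg N} (h : ∀ i, i < N → occ η i = occ ξ i) : η = ξ := by
  funext i
  have := h i.val i.isLt
  unfold occ at this
  rw [dif_pos i.isLt, dif_pos i.isLt] at this
  exact this

theorem gp_cnt {N : ℕ} (η : Cfg N) (A B : ℕ) :
    cnt η A B = ((Ico A B).filter (fun i => occ η i = true)).card := by
  unfold cnt
  rw [card_filter]

/-- reindexing the configurations of the window by sets -/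
theorem gp_sumT {N A x0 B : ℕ} (hB : B ≤ N) (η0 : Cfg N) (g : Cfg N → ℝ) :
    ∑ η ∈ XW A x0 B η0, g η =
      ∑ S ∈ powersetCard (B - x0) (Ico A B), g (gpT A B η0 S) := by
  have k1 : ∀ η ∈ XW A x0 B η0,
      gpT A B η0 ((Ico A B).filter (fun i => occ η i = true)) = η := by
    intro η hη
    unfold XW at hη
    rw [mem_filter] at hη
    apply gp_ext
    intro i hi
    rw [gp_occT hB]
    by_cases h1 : A ≤ i ∧ i < B
    · rw [if_pos h1]
      have h3 : i ∈ (Ico A B).filter (fun i => occ η i = true) ↔ occ η i = true := by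
        rw [mem_filter, mem_Ico]
        exact ⟨fun h => h.2, fun h => ⟨h1, h⟩⟩
      cases h4 : occ η i
      · apply decide_eq_false
        rw [h3, h4]
        exact Bool.false_ne_true
      · apply decide_eq_true
        rw [h3, h4]
    · rw [if_neg h1]
      exact (hη.2.2 i (mem_range.2 hi) (by omega)).symm
  have k2 : ∀ S ∈ powersetCard (B - x0) (Ico A B),
      (Ico A B).filter (fun i => occ (gpT A B η0 S) i = true) = S := by
    intro S hS
    rw [mem_powersetCard] at hS
    ext i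
    rw [mem_filter, gp_occT hB]
    constructor
    · rintro ⟨h1, h2⟩
      rw [mem_Ico] at h1
      rw [if_pos h1] at h2
      exact of_decide_eq_true h2
    · intro h1
      have h2 := hS.1 h1
      refine ⟨h2, ?_⟩
      rw [mem_Ico] at h2
      rw [if_pos h2]
      exact decide_eq_true h1
  refine sum_bij' (fun η _ => (Ico A B).filter (fun i => occ η i = true))
    (fun S _ => gpT A B η0 S) ?_ ?_ k1 k2 ?_
  · intro η hη
    unfold XW at hη
    rw [mem_filter] at hη
    rw [mem_powersetCard]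
    refine ⟨filter_subset _ _, ?_⟩
    rw [← gp_cnt]
    exact hη.2.1
  · intro S hS
    unfold XW
    rw [mem_filter]
    refine ⟨mem_univ _, ?_, ?_⟩
    · rw [gp_cnt, k2 S hS]
      exact (mem_powersetCard.1 hS).2
    · intro i _ hi
      rw [gp_occT hB, if_neg (by omega)]
  · intro η hη
    rw [k1 η hη]

theorem gp_RRpos {N : ℕ} {r l : ℕ → ℝ} (ha : Adm N r l) (hl : Pos N l) {z x : ℕ} (hx : x < N) :
    0 < RR r l z x := by
  unfold RR
  apply prod_pos
  intro b hb
  rw [mem_Ioc] at hb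
  exact div_pos (hl b (by omega) (by omega)) (ha b (by omega) (by omega)).1

theorem gp_RRmul (r l : ℕ → ℝ) {a b c : ℕ} (h1 : a ≤ b) (h2 : b ≤ c) :
    RR r l a b * RR r l b c = RR r l a c := by
  unfold RR
  exact prod_Ioc_consecutive _ h1 h2

/-- weights of the particles -/
noncomputable def gpO (r l : ℕ → ℝ) (A x0 B i : ℕ) : ℝ :=
  if A ≤ i ∧ i < B then (if i < x0 then RR r l i x0 else (RR r l x0 i)⁻¹) else 1

theorem gp_Opos {N : ℕ} {r l : ℕ → ℝ} (ha : Adm N r l) (hl : Pos N l) {A x0 B : ℕ}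
    (h2 : x0 < B) (hB : B ≤ N) (i : ℕ) : 0 < gpO r l A x0 B i := by
  unfold gpO
  split_ifs with h3 h4
  · exact gp_RRpos ha hl (by omega)
  · exact inv_pos.2 (gp_RRpos ha hl (by omega))
  · exact one_pos

theorem gp_OD {N : ℕ} {r l : ℕ → ℝ} (ha : Adm N r l) (hl : Pos N l) {A x0 B : ℕ} {D : ℝ}
    (h2 : x0 < B) (hB : B ≤ N)
    (hD : ∀ z x, A ≤ z → z ≤ x → x < B → RR r l z x ≤ D) (z x : ℕ) (hz : A ≤ z) (hzx : z ≤ x)
    (hx : x < B) : gpO r l A x0 B z ≤ D * gpO r l A x0 B x := by
  have hd := hD z x hz hzx hx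
  unfold gpO
  rw [if_pos (show A ≤ z ∧ z < B by omega), if_pos (show A ≤ x ∧ x < B by omega)]
  by_cases hx0 : x < x0
  · rw [if_pos (show z < x0 by omega), if_pos hx0, ← gp_RRmul r l hzx hx0.le]
    exact mul_le_mul_of_nonneg_right hd (gp_RRpos ha hl (by omega)).le
  · rw [if_neg hx0]
    have hp : 0 < RR r l x0 x := gp_RRpos ha hl (by omega)
    rw [← div_eq_mul_inv, le_div_iff₀ hp]
    by_cases hz0 : z < x0
    · rw [if_pos hz0, gp_RRmul r l hz0.le (by omega)]
      exact hd
    · rw [if_neg hz0, ← gp_RRmul r l (by omega : x0 ≤ z) hzx]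
      have hp' : 0 < RR r l x0 z := gp_RRpos ha hl (by omega)
      rw [← mul_assoc, inv_mul_cancel₀ hp'.ne', one_mul]
      exact hd

/-- weights of the configurations -/
theorem gp_pw {N : ℕ} {r l : ℕ → ℝ} (ha : Adm N r l) (hl : Pos N l) {A x0 B : ℕ} (h1 : A ≤ x0)
    (h2 : x0 < B) (hB : B ≤ N) (η0 : Cfg N) {S : Finset ℕ} (hS : S ⊆ Ico A B) :
    pw r l A x0 B (gpT A B η0 S) =
      (∏ i ∈ Ico x0 B, RR r l x0 i) * ∏ i ∈ S, gpO r l A x0 B i := by
  have e1 : ∏ i ∈ S, gpO r l A x0 B i =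
      (∏ i ∈ Ico A x0, if i ∈ S then gpO r l A x0 B i else 1) *
      ∏ i ∈ Ico x0 B, if i ∈ S then gpO r l A x0 B i else 1 := by
    rw [prod_Ico_consecutive _ h1 h2.le, ← prod_filter]
    apply prod_congr _ (fun _ _ => rfl)
    ext i
    rw [mem_filter]
    exact ⟨fun h => ⟨hS h, h⟩, fun h => h.2⟩
  rw [e1]
  unfold pw
  rw [mul_left_comm, ← prod_mul_distrib]
  congr 1
  · apply prod_congr rfl
    intro i hi
    rw [mem_Ico] at hi
    rw [gp_occT hB, if_pos (show A ≤ i ∧ i < B by omega)]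
    by_cases h : i ∈ S
    · rw [if_pos (decide_eq_true h), if_pos h]
      unfold gpO
      rw [if_pos (show A ≤ i ∧ i < B by omega), if_pos hi.2]
    · rw [if_neg (show ¬ (decide (i ∈ S) = true) by simpa using h), if_neg h]
  · apply prod_congr rfl
    intro i hi
    rw [mem_Ico] at hi
    rw [gp_occT hB, if_pos (show A ≤ i ∧ i < B by omega)]
    by_cases h : i ∈ S
    · rw [if_pos (decide_eq_true h), if_pos h]
      unfold gpO
      rw [if_pos (show A ≤ i ∧ i < B by omega), if_neg (show ¬ i < x0 by omega)]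
      rw [mul_inv_cancel₀ (gp_RRpos ha hl (show i < N by omega)).ne']
    · rw [if_neg (show ¬ (decide (i ∈ S) = true) by simpa using h), if_neg h, mul_one]

/-- right moves -/
theorem gp_RmT {N A B t : ℕ} (hB : B ≤ N) (η0 : Cfg N) {S : Finset ℕ} (hS : S ⊆ Ico A B)
    (ht : t ∈ S) (ht1 : t + 1 ∉ S) (htB : t + 1 < B) :
    Rm (t + 1) (gpT A B η0 S) = gpT A B η0 (gpM t S) := by
  have hA := mem_Ico.1 (hS ht)
  have o1 : occ (gpT A B η0 S) t = true := by
    rw [gp_occT hB, if_pos (by omega)]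
    exact decide_eq_true ht
  have o2 : occ (gpT A B η0 S) (t + 1) = false := by
    rw [gp_occT hB, if_pos (by omega)]
    exact decide_eq_false ht1
  unfold Rm
  rw [if_pos ⟨by omega, by omega, o1, o2⟩]
  funext i
  unfold swp
  by_cases h1 : i.val = t + 1
  · rw [if_pos h1]
    have e1 : t + 1 - 1 = t := by omega
    rw [e1, o1]
    unfold gpT gpM
    rw [if_pos (by omega), h1]
    exact (decide_eq_true (mem_insert_self _ _)).symm
  · rw [if_neg h1]
    by_cases h2 : i.val + 1 = t + 1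
    · rw [if_pos h2, o2]
      have h3 : i.val = t := by omega
      unfold gpT gpM
      rw [if_pos (by omega), h3]
      symm
      apply decide_eq_false
      rw [mem_insert, mem_erase]
      rintro (h | h)
      · omega
      · exact h.1 rfl
    · rw [if_neg h2]
      unfold gpT gpM
      by_cases h3 : A ≤ i.val ∧ i.val < B
      · rw [if_pos h3, if_pos h3]
        congr 1
        rw [eq_iff_iff, mem_insert, mem_erase]
        constructor
        · intro h
          exact Or.inr ⟨by omega, h⟩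
        · rintro (h | h)
          · exact absurd h h1
          · exact h.2
      · rw [if_neg h3, if_neg h3]

theorem st_GPOIN (h : ST_MFVAR) : ST_GPOIN := by
  intro N r l A x0 B D rmin η0 f ha hl h1 h2 hAB hB hr hrb hD1 hD
  have hW : (0 : ℝ) ≤ (B : ℝ) - A := by
    have : (A : ℝ) ≤ B := by exact_mod_cast hAB.le
    linarith
  have hb0 : ∀ b ∈ Ioo A B, 0 ≤ r b := by
    intro b hb
    rw [mem_Ioo] at hb
    exact hr.le.trans (hrb b hb.1 hb.2)
  rcases Nat.lt_or_ge x0 B with hx | hx
  · -- the main case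
    set j := B - x0 with hj
    set ω := gpO r l A x0 B with hωd
    set c : ℝ := ∏ i ∈ Ico x0 B, RR r l x0 i with hc
    set P := powersetCard j (Ico A B) with hP
    set F : Finset ℕ → ℝ := fun S => f (gpT A B η0 S) with hF
    have hω : ∀ i, 0 < ω i := gp_Opos ha hl hx hB
    have hc0 : 0 < c := prod_pos (fun i hi => gp_RRpos ha hl (by
      rw [mem_Ico] at hi
      omega))
    have hw0 : ∀ S : Finset ℕ, 0 ≤ ∏ i ∈ S, ω i := fun S => prod_nonneg (fun i _ => (hω i).le)
    have hPs : ∀ S ∈ P, S ⊆ Ico A B := fun S hS => (mem_powersetCard.1 hS).1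
    have hpw : ∀ S ∈ P, pw r l A x0 B (gpT A B η0 S) = c * ∏ i ∈ S, ω i :=
      fun S hS => gp_pw ha hl h1 hx hB η0 (hPs S hS)
    have hmf := gp_mf h (Ico A B) j ω hω F
    have hall := gp_all (j := j) hω (by linarith : (0 : ℝ) ≤ D)
      (gp_OD ha hl hx hB hD) hAB.le F
    set Zw : ℝ := ∑ S ∈ P, ∏ i ∈ S, ω i with hZw
    have hZw0 : 0 ≤ Zw := sum_nonneg (fun S _ => hw0 S)
    -- left side
    have eL : ∑ η ∈ XW A x0 B η0, ∑ ξ ∈ XW A x0 B η0,
        pw r l A x0 B η * pw r l A x0 B ξ * (f η - f ξ) ^ 2 =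
        c ^ 2 * ∑ S ∈ P, ∑ T ∈ P, (∏ i ∈ S, ω i) * (∏ i ∈ T, ω i) * (F S - F T) ^ 2 := by
      rw [gp_sumT hB, mul_sum]
      apply sum_congr rfl
      intro S hS
      rw [gp_sumT hB, mul_sum]
      apply sum_congr rfl
      intro T hT
      rw [hpw S hS, hpw T hT]
      ring
    have eZ : ∑ η ∈ XW A x0 B η0, pw r l A x0 B η = c * Zw := by
      rw [gp_sumT hB, hZw, mul_sum]
      exact sum_congr rfl hpw
    -- right side
    have eR : rmin * (c * ∑ t ∈ Ico A (B - 1), gpE ω F A B j t) ≤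
        ∑ η ∈ XW A x0 B η0, ∑ b ∈ Ioo A B,
          pw r l A x0 B η * r b * (f (Rm b η) - f η) ^ 2 := by
      rw [gp_sumT hB, sum_comm]
      have e1 : Ioo A B = (Ico A (B - 1)).image (fun t => t + 1) := by
        ext b
        rw [mem_Ioo, mem_image]
        constructor
        · intro hb
          refine ⟨b - 1, ?_, by omega⟩
          rw [mem_Ico]
          omega
        · rintro ⟨t, ht, rfl⟩
          rw [mem_Ico] at ht
          omega
      rw [e1, sum_image (fun a _ b _ hab => by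
        simpa using hab), mul_sum, mul_sum]
      apply sum_le_sum
      intro t ht
      rw [mem_Ico] at ht
      unfold gpE
      rw [mul_sum, mul_sum, ← hP]
      calc ∑ S ∈ P.filter (fun ξ => t ∈ ξ ∧ t + 1 ∉ ξ),
            rmin * (c * ((∏ i ∈ S, ω i) * (F S - F (gpM t S)) ^ 2))
          ≤ ∑ S ∈ P.filter (fun ξ => t ∈ ξ ∧ t + 1 ∉ ξ),
            pw r l A x0 B (gpT A B η0 S) * r (t + 1) *
              (f (Rm (t + 1) (gpT A B η0 S)) - f (gpT A B η0 S)) ^ 2 := by
            apply sum_le_sum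
            intro S hS
            rw [mem_filter] at hS
            obtain ⟨s1, s2, s3⟩ := hS
            rw [hpw S s1, gp_RmT hB η0 (hPs S s1) s2 s3 (by omega)]
            have h5 : rmin ≤ r (t + 1) := hrb (t + 1) (by omega) (by omega)
            have h6 : 0 ≤ c * (∏ i ∈ S, ω i) * (F S - F (gpM t S)) ^ 2 :=
              mul_nonneg (mul_nonneg hc0.le (hw0 S)) (sq_nonneg _)
            calc rmin * (c * ((∏ i ∈ S, ω i) * (F S - F (gpM t S)) ^ 2))
                = rmin * (c * (∏ i ∈ S, ω i) * (F S - F (gpM t S)) ^ 2) := by ring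
              _ ≤ r (t + 1) * (c * (∏ i ∈ S, ω i) * (F S - F (gpM t S)) ^ 2) :=
                mul_le_mul_of_nonneg_right h5 h6
              _ = _ := by
                rw [hF]
                ring
        _ ≤ _ := by
            apply sum_le_sum_of_subset_of_nonneg (filter_subset _ _)
            intro S hS _
            rw [hpw S hS]
            exact mul_nonneg (mul_nonneg (mul_nonneg hc0.le (hw0 S))
              (hb0 (t + 1) (mem_Ioo.2 (by omega)))) (sq_nonneg _)
    have hE0 : 0 ≤ ∑ t ∈ Ico A (B - 1), gpE ω F A B j t :=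
      sum_nonneg (fun t _ => gp_E0 hω F A B j t)
    set E : ℝ := ∑ t ∈ Ico A (B - 1), gpE ω F A B j t with hE
    set R : ℝ := ∑ η ∈ XW A x0 B η0, ∑ b ∈ Ioo A B,
          pw r l A x0 B η * r b * (f (Rm b η) - f η) ^ 2 with hR
    have hR0 : 0 ≤ R := le_trans (mul_nonneg hr.le (mul_nonneg hc0.le hE0)) eR
    rw [eL, eZ]
    have hcE : c * E ≤ R / rmin := by
      rw [le_div_iff₀ hr]
      linarith
    have hW5 : 0 ≤ ((B : ℝ) - A) ^ 5 * D ^ 2 := mul_nonneg (pow_nonneg hW _) (sq_nonneg _)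
    calc c ^ 2 * ∑ S ∈ P, ∑ T ∈ P, (∏ i ∈ S, ω i) * (∏ i ∈ T, ω i) * (F S - F T) ^ 2
        ≤ c ^ 2 * (Zw * (((B : ℝ) - A) ^ 5 * D ^ 2 * E)) := by
          apply mul_le_mul_of_nonneg_left _ (sq_nonneg _)
          exact hmf.trans (mul_le_mul_of_nonneg_left hall hZw0)
      _ = (((B : ℝ) - A) ^ 5 * D ^ 2) * (c * Zw) * (c * E) := by ring
      _ ≤ (((B : ℝ) - A) ^ 5 * D ^ 2) * (c * Zw) * (R / rmin) :=
          mul_le_mul_of_nonneg_left hcE (mul_nonneg hW5 (mul_nonneg hc0.le hZw0))
      _ ≤ 2 * ((((B : ℝ) - A) ^ 5 * D ^ 2) * (c * Zw) * (R / rmin)) := by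
          have : 0 ≤ (((B : ℝ) - A) ^ 5 * D ^ 2) * (c * Zw) * (R / rmin) :=
            mul_nonneg (mul_nonneg hW5 (mul_nonneg hc0.le hZw0)) (div_nonneg hR0 hr.le)
          linarith
      _ = _ := by ring
  · -- no particles
    have hxB : x0 = B := by omega
    have hj : B - x0 = 0 := by omega
    have hpw : ∀ η ∈ XW A x0 B η0, η = gpT A B η0 ∅ := by
      intro η hη
      unfold XW at hη
      rw [mem_filter, gp_cnt, hj, card_eq_zero] at hη
      apply gp_ext
      intro i hi
      rw [gp_occT hB]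
      by_cases h3 : A ≤ i ∧ i < B
      · rw [if_pos h3]
        have h4 : i ∉ (Ico A B).filter (fun i => occ η i = true) := by
          rw [hη.2.1]
          exact notMem_empty i
        rw [mem_filter, mem_Ico] at h4
        have h5 : occ η i = false := by
          cases h6 : occ η i
          · rfl
          · exact absurd ⟨h3, h6⟩ h4
        rw [h5]
        exact (decide_eq_false (notMem_empty i)).symm
      · rw [if_neg h3]
        exact hη.2.2 i (mem_range.2 hi) (by omega)
    have eL : ∑ η ∈ XW A x0 B η0, ∑ ξ ∈ XW A x0 B η0,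
        pw r l A x0 B η * pw r l A x0 B ξ * (f η - f ξ) ^ 2 = 0 := by
      apply sum_eq_zero
      intro η hη
      apply sum_eq_zero
      intro ξ hξ
      rw [hpw η hη, hpw ξ hξ]
      ring
    rw [eL]
    have hp1 : ∀ η ∈ XW A x0 B η0, 0 ≤ pw r l A x0 B η := by
      intro η hη
      rw [hpw η hη]
      unfold pw
      apply mul_nonneg
      · apply prod_nonneg
        intro i hi
        rw [mem_Ico] at hi
        rw [gp_occT hB, if_pos (show A ≤ i ∧ i < B by omega),
          if_neg (show ¬ (decide (i ∈ (∅ : Finset ℕ)) = true) by simp)]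
        exact zero_le_one
      · rw [hxB, Ico_self, prod_empty]
        exact zero_le_one
    apply mul_nonneg
    · apply mul_nonneg
      · apply div_nonneg _ hr.le
        exact mul_nonneg (mul_nonneg two_pos.le (pow_nonneg hW _)) (sq_nonneg _)
      · exact sum_nonneg hp1
    · apply sum_nonneg
      intro η hη
      apply sum_nonneg
      intro b hb
      exact mul_nonneg (mul_nonneg (hp1 η hη) (hb0 b hb)) (sq_nonneg _)

end Pool.Agent.Helper98.EX
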