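import Pool.Agent.Helper98.EY.StmtsB

/-! Paths of right moves between configurations with one exchanged pair. -/

set_option autoImplicit false

namespace Pool.Agent.Helper98.EX

open Finset

/-- the last particle at or before `t` -/
def gpA (S : Finset ℕ) (t : ℕ) : ℕ := Nat.findGreatest (fun i => i ∈ S) t

/-- the first element of `U` after `t` -/
noncomputable def gpC (U : Finset ℕ) (t : ℕ) : ℕ := sInf {i | t < i ∧ i ∈ U}

/-- the configuration in which the particle crosses the bond `t + 1` -/
noncomputable def gpX (S : Finset ℕ) (y t : ℕ) : Finset ℕ :=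
  insert t (((insert y S).erase (gpC (insert y S) t)).erase (gpA S t))

/-- the right move -/
def gpM (t : ℕ) (S : Finset ℕ) : Finset ℕ := insert (t + 1) (S.erase t)

theorem gp_a {S : Finset ℕ} {x t : ℕ} (hx : x ∈ S) (hxt : x ≤ t) :
    gpA S t ∈ S ∧ x ≤ gpA S t ∧ gpA S t ≤ t ∧ ∀ i ∈ S, i ≤ t → i ≤ gpA S t := by
  refine ⟨Nat.findGreatest_spec (P := fun i => i ∈ S) hxt hx,
    Nat.le_findGreatest hxt hx, Nat.findGreatest_le t, ?_⟩
  intro i hi hit
  exact Nat.le_findGreatest hit hi

theorem gp_c {U : Finset ℕ} {y t : ℕ} (hy : y ∈ U) (hty : t < y) :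
    gpC U t ∈ U ∧ t < gpC U t ∧ gpC U t ≤ y ∧ ∀ i ∈ U, t < i → gpC U t ≤ i := by
  have hne : {i | t < i ∧ i ∈ U}.Nonempty := ⟨y, hty, hy⟩
  have h1 := Nat.sInf_mem hne
  exact ⟨h1.2, h1.1, Nat.sInf_le ⟨hty, hy⟩, fun i hi hti => Nat.sInf_le ⟨hti, hi⟩⟩

/-- basic facts about the crossing configuration -/
theorem gp_x {S : Finset ℕ} {x y t : ℕ} (hx : x ∈ S) (hy : y ∉ S) (hxt : x ≤ t) (hty : t < y) :
    t ∈ gpX S y t ∧ t + 1 ∉ gpX S y t ∧
    t ∉ ((insert y S).erase (gpC (insert y S) t)).erase (gpA S t) ∧
    gpA S t ∈ (insert y S).erase (gpC (insert y S) t) ∧ gpC (insert y S) t ∈ insert y S := by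
  obtain ⟨a1, a2, a3, a4⟩ := gp_a hx hxt
  obtain ⟨c1, c2, c3, c4⟩ := gp_c (mem_insert_self y S) hty
  refine ⟨mem_insert_self _ _, ?_, ?_, ?_, c1⟩
  · unfold gpX
    rw [mem_insert, mem_erase, mem_erase]
    rintro (h | ⟨h1, h2, h3⟩)
    · omega
    · have := c4 (t + 1) h3 (by omega)
      omega
  · rw [mem_erase, mem_erase]
    rintro ⟨h1, h2, h3⟩
    rcases mem_insert.1 h3 with h4 | h4
    · omega
    · have := a4 t h4 le_rfl
      omega
  · rw [mem_erase]
    exact ⟨by omega, mem_insert_of_mem a1⟩

theorem gp_card {S : Finset ℕ} {x y t : ℕ} (hx : x ∈ S) (hy : y ∉ S) (hxt : x ≤ t) (hty : t < y) :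
    (gpX S y t).card = S.card := by
  obtain ⟨_, _, h3, h4, h5⟩ := gp_x hx hy hxt hty
  unfold gpX
  rw [card_insert_of_notMem h3, card_erase_of_mem h4, card_erase_of_mem h5,
    card_insert_of_notMem hy]
  have : 0 < S.card := card_pos.2 ⟨x, hx⟩
  omega

theorem gp_sub {I S : Finset ℕ} {y t : ℕ} (hS : S ⊆ I) (hy : y ∈ I) (ht : t ∈ I) :
    gpX S y t ⊆ I := by
  intro i hi
  unfold gpX at hi
  rcases mem_insert.1 hi with rfl | h
  · exact ht
  · rcases mem_insert.1 (mem_of_mem_erase (mem_of_mem_erase h)) with rfl | h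
    · exact hy
    · exact hS h

/-- the configuration is determined -/
theorem gp_rec {S : Finset ℕ} {x y t : ℕ} (hx : x ∈ S) (hy : y ∉ S) (hxt : x ≤ t) (hty : t < y) :
    S = (insert (gpC (insert y S) t) (insert (gpA S t) ((gpX S y t).erase t))).erase y := by
  obtain ⟨_, _, h3, h4, h5⟩ := gp_x hx hy hxt hty
  have e1 : (gpX S y t).erase t =
      ((insert y S).erase (gpC (insert y S) t)).erase (gpA S t) := by
    unfold gpX
    exact erase_insert h3
  rw [e1, insert_erase h4, insert_erase h5, erase_insert hy]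

/-- weights -/
theorem gp_w {S : Finset ℕ} {x y t : ℕ} (hx : x ∈ S) (hy : y ∉ S) (hxt : x ≤ t) (hty : t < y)
    (ω : ℕ → ℝ) :
    (∏ i ∈ gpX S y t, ω i) * ω (gpA S t) * ω (gpC (insert y S) t) =
      (∏ i ∈ S, ω i) * ω t * ω y := by
  obtain ⟨_, _, h3, h4, h5⟩ := gp_x hx hy hxt hty
  have e1 : ∏ i ∈ gpX S y t, ω i = ω t *
      ∏ i ∈ ((insert y S).erase (gpC (insert y S) t)).erase (gpA S t), ω i := by
    unfold gpX
    exact prod_insert h3
  have e2 := mul_prod_erase _ ω h4
  have e3 := mul_prod_erase _ ω h5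
  have e4 := prod_insert (f := ω) hy
  rw [e1]
  calc ω t * (∏ i ∈ ((insert y S).erase (gpC (insert y S) t)).erase (gpA S t), ω i) *
        ω (gpA S t) * ω (gpC (insert y S) t)
      = ω t * (ω (gpC (insert y S) t) * (ω (gpA S t) *
          ∏ i ∈ ((insert y S).erase (gpC (insert y S) t)).erase (gpA S t), ω i)) := by ring
    _ = ω t * (ω y * ∏ i ∈ S, ω i) := by rw [e2, e3, e4]
    _ = _ := by ring

/-- the path -/
theorem gp_path (F : Finset ℕ → ℝ) (x : ℕ) : ∀ y : ℕ, ∀ S : Finset ℕ, x ∈ S → y ∉ S → x < y →
    |F S - F (insert y (S.erase x))| ≤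
      ∑ t ∈ Ico x y, |F (gpX S y t) - F (gpM t (gpX S y t))| := by
  intro y
  induction y using Nat.strong_induction_on with
  | _ y ih =>
    intro S hx hy hxy
    obtain ⟨a1, a2, a3, a4⟩ := gp_a hx (show x ≤ y - 1 by omega)
    set p := gpA S (y - 1) with hp
    have hpy : p < y := by omega
    -- the first part
    have hX1 : ∀ t, p ≤ t → t < y → gpX S y t = insert t (S.erase p) := by
      intro t h1 h2
      obtain ⟨b1, b2, b3, b4⟩ := gp_a hx (a2.trans h1)
      obtain ⟨c1, c2, c3, c4⟩ := gp_c (mem_insert_self y S) h2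
      have e1 : gpA S t = p := by
        apply le_antisymm
        · exact a4 _ b1 (by omega)
        · exact b4 p a1 h1
      have e2 : gpC (insert y S) t = y := by
        rcases mem_insert.1 c1 with h | h
        · exact h
        · exfalso
          by_cases hlt : gpC (insert y S) t < y
          · have := a4 _ h (by omega)
            omega
          · have : gpC (insert y S) t = y := by omega
            rw [this] at h
            exact hy h
      unfold gpX
      rw [e1, e2, erase_insert hy]
    have hM1 : ∀ t, p ≤ t → t < y → gpM t (gpX S y t) = insert (t + 1) (S.erase p) := by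
      intro t h1 h2
      rw [hX1 t h1 h2]
      unfold gpM
      rw [erase_insert]
      intro h
      rw [mem_erase] at h
      have := a4 t h.2 (by omega)
      omega
    have hpart1 : |F S - F (insert y (S.erase p))| ≤
        ∑ t ∈ Ico p y, |F (gpX S y t) - F (gpM t (gpX S y t))| := by
      have e1 : F S - F (insert y (S.erase p)) =
          ∑ t ∈ Ico p y, (F (insert t (S.erase p)) - F (insert (t + 1) (S.erase p))) := by
        rw [Finset.sum_Ico_eq_sum_range]
        have e2 := Finset.sum_range_sub' (fun t => F (insert (p + t) (S.erase p))) (y - p)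
        simp only [add_zero] at e2
        have e3 : p + (y - p) = y := by omega
        rw [e3, insert_erase a1] at e2
        rw [← e2]
        rfl
      rw [e1]
      refine (Finset.abs_sum_le_sum_abs _ _).trans (le_of_eq ?_)
      apply Finset.sum_congr rfl
      intro t ht
      rw [mem_Ico] at ht
      rw [hX1 t ht.1 ht.2]
      have := hM1 t ht.1 ht.2
      rw [hX1 t ht.1 ht.2] at this
      rw [this]
    by_cases hpx : p = x
    · rw [hpx] at hpart1
      exact hpart1
    · have hxp : x < p := by omega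
      set S1 : Finset ℕ := insert y (S.erase p) with hS1
      have hx1 : x ∈ S1 := mem_insert_of_mem (mem_erase.2 ⟨by omega, hx⟩)
      have hp1 : p ∉ S1 := by
        rw [hS1, mem_insert, mem_erase]
        rintro (h | h)
        · omega
        · exact h.1 rfl
      have h2 := ih p hpy S1 hx1 hp1 hxp
      have e1 : insert p S1 = insert y S := by
        rw [hS1, Finset.insert_comm, insert_erase a1]
      have e2 : insert p (S1.erase x) = insert y (S.erase x) := by
        rw [← erase_insert_of_ne (by omega : p ≠ x), e1, erase_insert_of_ne (by omega : y ≠ x)]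
      have e3 : ∀ t ∈ Ico x p, gpX S1 p t = gpX S y t := by
        intro t ht
        rw [mem_Ico] at ht
        have e4 : gpA S1 t = gpA S t := by
          obtain ⟨b1, b2, b3, b4⟩ := gp_a hx ht.1
          obtain ⟨d1, d2, d3, d4⟩ := gp_a hx1 ht.1
          apply le_antisymm
          · have d1' := d1
            generalize gpA S1 t = g at d1' d3 ⊢
            apply b4 _ _ d3
            rw [hS1, mem_insert, mem_erase] at d1'
            rcases d1' with h | h
            · omega
            · exact h.2
          · apply d4 _ _ b3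
            rw [hS1, mem_insert, mem_erase]
            exact Or.inr ⟨by omega, b1⟩
        unfold gpX
        rw [e1, e4]
      rw [e2] at h2
      rw [Finset.sum_congr rfl (fun t ht => by rw [e3 t ht])] at h2
      rw [← Finset.sum_Ico_consecutive _ hxp.le hpy.le]
      calc |F S - F (insert y (S.erase x))|
          ≤ |F S - F S1| + |F S1 - F (insert y (S.erase x))| := abs_sub_le _ _ _
        _ ≤ _ := by
            rw [add_comm]
            exact add_le_add h2 hpart1

end Pool.Agent.Helper98.EX
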