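import Pool.Agent.Helper97.EY.GPOIN1

/-! Canonical path bound on the level of sets. -/

set_option autoImplicit false

namespace Pool.Agent.Helper98.EX

open Finset

/-- energy of one bond -/
noncomputable def gpE (ω : ℕ → ℝ) (F : Finset ℕ → ℝ) (A B j t : ℕ) : ℝ :=
  ∑ ξ ∈ (powersetCard j (Ico A B)).filter (fun ξ => t ∈ ξ ∧ t + 1 ∉ ξ),
    (∏ i ∈ ξ, ω i) * (F ξ - F (gpM t ξ)) ^ 2

/-- summation over starting configurations -/
theorem gp_inj {A B j x y t : ℕ} (G : Finset ℕ → ℝ) (hG : ∀ ξ, 0 ≤ G ξ)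
    (hx : x ∈ Ico A B) (hy : y ∈ Ico A B) (hxt : x ≤ t) (hty : t < y) :
    ∑ S ∈ (powersetCard j (Ico A B)).filter (fun S => x ∈ S ∧ y ∉ S), G (gpX S y t) ≤
      ((B : ℝ) - A) ^ 2 *
      ∑ ξ ∈ (powersetCard j (Ico A B)).filter (fun ξ => t ∈ ξ ∧ t + 1 ∉ ξ), G ξ := by
  rw [mem_Ico] at hx hy
  set P0 := (powersetCard j (Ico A B)).filter (fun S => x ∈ S ∧ y ∉ S) with hP0
  set P1 := (powersetCard j (Ico A B)).filter (fun ξ => t ∈ ξ ∧ t + 1 ∉ ξ) with hP1
  have hm : ∀ S ∈ P0, S ⊆ Ico A B ∧ S.card = j ∧ x ∈ S ∧ y ∉ S := by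
    intro S hS
    rw [hP0, mem_filter, mem_powersetCard] at hS
    exact ⟨hS.1.1, hS.1.2, hS.2.1, hS.2.2⟩
  set φ : Finset ℕ → ℕ × ℕ × Finset ℕ := fun S => (gpA S t, gpC (insert y S) t, gpX S y t) with hφ
  have hinj : Set.InjOn φ (P0 : Set (Finset ℕ)) := by
    intro S hS T hT hST
    obtain ⟨_, _, s3, s4⟩ := hm S hS
    obtain ⟨_, _, t3, t4⟩ := hm T hT
    simp only [hφ, Prod.mk.injEq] at hST
    rw [gp_rec s3 s4 hxt hty, gp_rec t3 t4 hxt hty, hST.1, hST.2.1, hST.2.2]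
  have hsub : P0.image φ ⊆ (Ico A B) ×ˢ ((Ico A B) ×ˢ P1) := by
    intro p hp
    obtain ⟨S, hS, rfl⟩ := mem_image.1 hp
    obtain ⟨s1, s2, s3, s4⟩ := hm S hS
    obtain ⟨a1, a2, a3, a4⟩ := gp_a s3 hxt
    obtain ⟨c1, c2, c3, c4⟩ := gp_c (mem_insert_self y S) hty
    obtain ⟨x1, x2, _⟩ := gp_x s3 s4 hxt hty
    rw [mem_product, mem_product]
    refine ⟨s1 a1, ?_, ?_⟩
    · change gpC (insert y S) t ∈ Ico A B
      rw [mem_Ico]
      omega
    · change gpX S y t ∈ P1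
      rw [hP1, mem_filter, mem_powersetCard]
      refine ⟨⟨gp_sub s1 (mem_Ico.2 hy) (mem_Ico.2 (by omega)), ?_⟩, x1, x2⟩
      rw [gp_card s3 s4 hxt hty, s2]
  have e1 : ∑ S ∈ P0, G (gpX S y t) = ∑ p ∈ P0.image φ, G p.2.2 := by
    rw [sum_image hinj]
  rw [e1]
  refine (sum_le_sum_of_subset_of_nonneg hsub (fun p _ _ => hG _)).trans (le_of_eq ?_)
  rw [sum_product]
  simp only [sum_product, sum_const, Nat.card_Ico, nsmul_eq_mul]
  have hAB : A ≤ B := by omega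
  rw [Nat.cast_sub hAB]
  ring

/-- weights along the path -/
theorem gp_wle {A B x y t : ℕ} {ω : ℕ → ℝ} {D : ℝ} {S : Finset ℕ} (hω : ∀ i, 0 < ω i)
    (hD0 : 0 ≤ D)
    (hD : ∀ z x, A ≤ z → z ≤ x → x < B → ω z ≤ D * ω x) (hS : S ⊆ Ico A B) (hyB : y < B)
    (hx : x ∈ S) (hy : y ∉ S) (hxt : x ≤ t) (hty : t < y) :
    ∏ i ∈ S, ω i ≤ D ^ 2 * ∏ i ∈ gpX S y t, ω i := by
  have hw := gp_w hx hy hxt hty ω
  obtain ⟨a1, a2, a3, a4⟩ := gp_a hx hxt
  obtain ⟨c1, c2, c3, c4⟩ := gp_c (mem_insert_self y S) hty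
  have ha := mem_Ico.1 (hS a1)
  have h1 := hD (gpA S t) t ha.1 a3 (by omega)
  have h2 := hD (gpC (insert y S) t) y (by omega) c3 hyB
  have hX : 0 ≤ ∏ i ∈ gpX S y t, ω i := prod_nonneg (fun i _ => (hω i).le)
  have h3 : ω (gpA S t) * ω (gpC (insert y S) t) ≤ (D * ω t) * (D * ω y) :=
    mul_le_mul h1 h2 (hω _).le (mul_nonneg hD0 (hω _).le)
  have h4 : (∏ i ∈ S, ω i) * (ω t * ω y) ≤ (D ^ 2 * ∏ i ∈ gpX S y t, ω i) * (ω t * ω y) := by
    calc (∏ i ∈ S, ω i) * (ω t * ω y) = (∏ i ∈ S, ω i) * ω t * ω y := by ring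
      _ = (∏ i ∈ gpX S y t, ω i) * ω (gpA S t) * ω (gpC (insert y S) t) := hw.symm
      _ = (∏ i ∈ gpX S y t, ω i) * (ω (gpA S t) * ω (gpC (insert y S) t)) := by ring
      _ ≤ (∏ i ∈ gpX S y t, ω i) * ((D * ω t) * (D * ω y)) := mul_le_mul_of_nonneg_left h3 hX
      _ = _ := by ring
  exact le_of_mul_le_mul_right h4 (mul_pos (hω _) (hω _))

/-- harmonic mean -/
noncomputable def gpK (a b : ℝ) : ℝ := a * b / (a + b)

theorem gp_K {a b : ℝ} (ha : 0 < a) (hb : 0 < b) : 0 ≤ gpK a b ∧ gpK a b ≤ a := by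
  unfold gpK
  refine ⟨by positivity, ?_⟩
  rw [div_le_iff₀ (by positivity)]
  nlinarith [mul_pos ha ha]

theorem gp_E0 {ω : ℕ → ℝ} (hω : ∀ i, 0 < ω i) (F : Finset ℕ → ℝ) (A B j t : ℕ) :
    0 ≤ gpE ω F A B j t :=
  sum_nonneg (fun _ _ => mul_nonneg (prod_nonneg (fun i _ => (hω i).le)) (sq_nonneg _))

/-- one exchanged pair, left to right -/
theorem gp_pair {A B j x y : ℕ} {ω : ℕ → ℝ} {D : ℝ} (hω : ∀ i, 0 < ω i) (hD0 : 0 ≤ D)
    (hD : ∀ z x, A ≤ z → z ≤ x → x < B → ω z ≤ D * ω x) (F : Finset ℕ → ℝ)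
    (hx : x ∈ Ico A B) (hy : y ∈ Ico A B) (hxy : x < y) :
    ∑ S ∈ (powersetCard j (Ico A B)).filter (fun S => x ∈ S ∧ y ∉ S),
      gpK (∏ i ∈ S, ω i) (∏ i ∈ insert y (S.erase x), ω i) *
        (F S - F (insert y (S.erase x))) ^ 2 ≤
      ((B : ℝ) - A) ^ 3 * D ^ 2 * ∑ t ∈ Ico A (B - 1), gpE ω F A B j t := by
  have hx' := mem_Ico.1 hx
  have hy' := mem_Ico.1 hy
  have hW : ((y - x : ℕ) : ℝ) ≤ (B : ℝ) - A := by
    rw [Nat.cast_sub hxy.le]
    have h1 : (y : ℝ) ≤ B := by exact_mod_cast hy'.2.le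
    have h2 : (A : ℝ) ≤ x := by exact_mod_cast hx'.1
    linarith
  have hW0 : (0 : ℝ) ≤ (B : ℝ) - A := le_trans (Nat.cast_nonneg _) hW
  set G : ℕ → Finset ℕ → ℝ := fun t ξ => (∏ i ∈ ξ, ω i) * (F ξ - F (gpM t ξ)) ^ 2 with hGd
  have hG : ∀ t ξ, 0 ≤ G t ξ := fun t ξ =>
    mul_nonneg (prod_nonneg (fun i _ => (hω i).le)) (sq_nonneg _)
  have step1 : ∀ S ∈ (powersetCard j (Ico A B)).filter (fun S => x ∈ S ∧ y ∉ S),
      gpK (∏ i ∈ S, ω i) (∏ i ∈ insert y (S.erase x), ω i) *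
        (F S - F (insert y (S.erase x))) ^ 2 ≤
      ((B : ℝ) - A) * D ^ 2 * ∑ t ∈ Ico x y, G t (gpX S y t) := by
    intro S hS
    rw [mem_filter, mem_powersetCard] at hS
    obtain ⟨⟨s1, s2⟩, s3, s4⟩ := hS
    have hK := gp_K (prod_pos (fun i (_ : i ∈ S) => hω i))
      (prod_pos (fun i (_ : i ∈ insert y (S.erase x)) => hω i))
    have hp := gp_path F x y S s3 s4 hxy
    have h1 : (F S - F (insert y (S.erase x))) ^ 2 ≤
        ((y - x : ℕ) : ℝ) * ∑ t ∈ Ico x y, (F (gpX S y t) - F (gpM t (gpX S y t))) ^ 2 := by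
      calc (F S - F (insert y (S.erase x))) ^ 2 = |F S - F (insert y (S.erase x))| ^ 2 :=
            (sq_abs _).symm
        _ ≤ (∑ t ∈ Ico x y, |F (gpX S y t) - F (gpM t (gpX S y t))|) ^ 2 :=
            pow_le_pow_left₀ (abs_nonneg _) hp 2
        _ ≤ ((Ico x y).card : ℝ) * ∑ t ∈ Ico x y, |F (gpX S y t) - F (gpM t (gpX S y t))| ^ 2 :=
            sq_sum_le_card_mul_sum_sq
        _ = _ := by
            rw [Nat.card_Ico]
            simp only [sq_abs]
    have hS0 : 0 ≤ ∏ i ∈ S, ω i := prod_nonneg (fun i _ => (hω i).le)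
    calc gpK (∏ i ∈ S, ω i) (∏ i ∈ insert y (S.erase x), ω i) *
          (F S - F (insert y (S.erase x))) ^ 2
        ≤ (∏ i ∈ S, ω i) * (((y - x : ℕ) : ℝ) *
            ∑ t ∈ Ico x y, (F (gpX S y t) - F (gpM t (gpX S y t))) ^ 2) :=
          mul_le_mul hK.2 h1 (sq_nonneg _) hS0
      _ ≤ (∏ i ∈ S, ω i) * (((B : ℝ) - A) *
            ∑ t ∈ Ico x y, (F (gpX S y t) - F (gpM t (gpX S y t))) ^ 2) := by
          apply mul_le_mul_of_nonneg_left _ hS0
          exact mul_le_mul_of_nonneg_right hW (sum_nonneg (fun _ _ => sq_nonneg _))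
      _ = ((B : ℝ) - A) *
            ∑ t ∈ Ico x y, (∏ i ∈ S, ω i) * (F (gpX S y t) - F (gpM t (gpX S y t))) ^ 2 := by
          rw [← mul_sum]
          ring
      _ ≤ ((B : ℝ) - A) * ∑ t ∈ Ico x y, D ^ 2 * G t (gpX S y t) := by
          apply mul_le_mul_of_nonneg_left _ hW0
          apply sum_le_sum
          intro t ht
          rw [mem_Ico] at ht
          have h2 := gp_wle hω hD0 hD s1 hy'.2 s3 s4 ht.1 ht.2
          calc (∏ i ∈ S, ω i) * (F (gpX S y t) - F (gpM t (gpX S y t))) ^ 2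
              ≤ (D ^ 2 * ∏ i ∈ gpX S y t, ω i) *
                  (F (gpX S y t) - F (gpM t (gpX S y t))) ^ 2 :=
                mul_le_mul_of_nonneg_right h2 (sq_nonneg _)
            _ = _ := by rw [hGd]; ring
      _ = _ := by rw [← mul_sum]; ring
  refine (sum_le_sum step1).trans ?_
  rw [← mul_sum, sum_comm]
  calc ((B : ℝ) - A) * D ^ 2 * ∑ t ∈ Ico x y,
        ∑ S ∈ (powersetCard j (Ico A B)).filter (fun S => x ∈ S ∧ y ∉ S), G t (gpX S y t)
      ≤ ((B : ℝ) - A) * D ^ 2 * ∑ t ∈ Ico x y, ((B : ℝ) - A) ^ 2 * gpE ω F A B j t := by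
        apply mul_le_mul_of_nonneg_left _ (mul_nonneg hW0 (sq_nonneg _))
        apply sum_le_sum
        intro t ht
        rw [mem_Ico] at ht
        exact gp_inj (G t) (hG t) hx hy ht.1 ht.2
    _ ≤ ((B : ℝ) - A) * D ^ 2 * ∑ t ∈ Ico A (B - 1), ((B : ℝ) - A) ^ 2 * gpE ω F A B j t := by
        apply mul_le_mul_of_nonneg_left _ (mul_nonneg hW0 (sq_nonneg _))
        apply sum_le_sum_of_subset_of_nonneg
        · intro t ht
          rw [mem_Ico] at ht ⊢
          omega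
        · intro t _ _
          exact mul_nonneg (sq_nonneg _) (gp_E0 hω F A B j t)
    _ = _ := by rw [← mul_sum]; ring

/-- one exchanged pair -/
theorem gp_pair' {A B j x y : ℕ} {ω : ℕ → ℝ} {D : ℝ} (hω : ∀ i, 0 < ω i) (hD0 : 0 ≤ D)
    (hD : ∀ z x, A ≤ z → z ≤ x → x < B → ω z ≤ D * ω x) (F : Finset ℕ → ℝ)
    (hx : x ∈ Ico A B) (hy : y ∈ Ico A B) :
    ∑ S ∈ (powersetCard j (Ico A B)).filter (fun S => x ∈ S ∧ y ∉ S),
      gpK (∏ i ∈ S, ω i) (∏ i ∈ insert y (S.erase x), ω i) *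
        (F S - F (insert y (S.erase x))) ^ 2 ≤
      ((B : ℝ) - A) ^ 3 * D ^ 2 * ∑ t ∈ Ico A (B - 1), gpE ω F A B j t := by
  rcases lt_trichotomy x y with hxy | hxy | hxy
  · exact gp_pair hω hD0 hD F hx hy hxy
  · subst hxy
    have hx' := mem_Ico.1 hx
    rw [filter_false_of_mem (fun S _ h => h.2 h.1), sum_empty]
    have hAB : (A : ℝ) ≤ B := by exact_mod_cast (by omega : A ≤ B)
    exact mul_nonneg (mul_nonneg (pow_nonneg (by linarith) _) (sq_nonneg _))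
      (sum_nonneg (fun t _ => gp_E0 hω F A B j t))
  · refine le_trans (le_of_eq ?_) (gp_pair hω hD0 hD F hy hx hxy (j := j))
    have hne : x ≠ y := by omega
    have key : ∀ a b : ℕ, a ≠ b → a ∈ Ico A B → b ∈ Ico A B →
        ∀ S ∈ (powersetCard j (Ico A B)).filter (fun S => a ∈ S ∧ b ∉ S),
        insert b (S.erase a) ∈ (powersetCard j (Ico A B)).filter (fun S => b ∈ S ∧ a ∉ S) ∧
        insert a ((insert b (S.erase a)).erase b) = S := by
      intro a b hab ha hb S hS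
      rw [mem_filter, mem_powersetCard] at hS
      obtain ⟨⟨s1, s2⟩, s3, s4⟩ := hS
      have hb' : b ∉ S.erase a := fun h => s4 (mem_of_mem_erase h)
      constructor
      · rw [mem_filter, mem_powersetCard]
        refine ⟨⟨?_, ?_⟩, mem_insert_self _ _, ?_⟩
        · intro i hi
          rcases mem_insert.1 hi with rfl | h
          · exact hb
          · exact s1 (mem_of_mem_erase h)
        · rw [card_insert_of_notMem hb', card_erase_of_mem s3]
          have : 0 < S.card := card_pos.2 ⟨a, s3⟩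
          omega
        · rw [mem_insert, mem_erase]
          rintro (h | h)
          · exact hab h
          · exact h.1 rfl
      · rw [erase_insert hb', insert_erase s3]
    refine sum_bij' (fun S _ => insert y (S.erase x)) (fun S _ => insert x (S.erase y))
      (fun S hS => (key x y hne hx hy S hS).1) (fun S hS => (key y x hne.symm hy hx S hS).1)
      (fun S hS => (key x y hne hx hy S hS).2) (fun S hS => (key y x hne.symm hy hx S hS).2) ?_
    intro S hS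
    rw [(key x y hne hx hy S hS).2]
    unfold gpK
    ring

/-- all exchanged pairs -/
theorem gp_all {A B j : ℕ} {ω : ℕ → ℝ} {D : ℝ} (hω : ∀ i, 0 < ω i) (hD0 : 0 ≤ D)
    (hD : ∀ z x, A ≤ z → z ≤ x → x < B → ω z ≤ D * ω x) (hAB : A ≤ B) (F : Finset ℕ → ℝ) :
    ∑ S ∈ powersetCard j (Ico A B), ∑ x ∈ S, ∑ y ∈ Ico A B \ S,
      gpK (∏ i ∈ S, ω i) (∏ i ∈ insert y (S.erase x), ω i) *
        (F S - F (insert y (S.erase x))) ^ 2 ≤
      ((B : ℝ) - A) ^ 5 * D ^ 2 * ∑ t ∈ Ico A (B - 1), gpE ω F A B j t := by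
  have e1 : ∑ S ∈ powersetCard j (Ico A B), ∑ x ∈ S, ∑ y ∈ Ico A B \ S,
      gpK (∏ i ∈ S, ω i) (∏ i ∈ insert y (S.erase x), ω i) *
        (F S - F (insert y (S.erase x))) ^ 2 =
      ∑ x ∈ Ico A B, ∑ y ∈ Ico A B,
        ∑ S ∈ (powersetCard j (Ico A B)).filter (fun S => x ∈ S ∧ y ∉ S),
          gpK (∏ i ∈ S, ω i) (∏ i ∈ insert y (S.erase x), ω i) *
            (F S - F (insert y (S.erase x))) ^ 2 := by
    have h1 : ∀ S ∈ powersetCard j (Ico A B), ∑ x ∈ S, ∑ y ∈ Ico A B \ S,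
        gpK (∏ i ∈ S, ω i) (∏ i ∈ insert y (S.erase x), ω i) *
        (F S - F (insert y (S.erase x))) ^ 2 =
        ∑ x ∈ Ico A B, ∑ y ∈ Ico A B, if x ∈ S ∧ y ∉ S then
          gpK (∏ i ∈ S, ω i) (∏ i ∈ insert y (S.erase x), ω i) *
            (F S - F (insert y (S.erase x))) ^ 2 else 0 := by
      intro S hS
      rw [mem_powersetCard] at hS
      have h2 : (Ico A B).filter (fun x => x ∈ S) = S := by
        ext i
        rw [mem_filter]
        exact ⟨fun h => h.2, fun h => ⟨hS.1 h, h⟩⟩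
      have h3 : (Ico A B).filter (fun y => y ∉ S) = Ico A B \ S := by
        ext i
        rw [mem_filter, mem_sdiff]
      calc ∑ x ∈ S, ∑ y ∈ Ico A B \ S, gpK (∏ i ∈ S, ω i) (∏ i ∈ insert y (S.erase x), ω i) *
              (F S - F (insert y (S.erase x))) ^ 2
          = ∑ x ∈ (Ico A B).filter (fun x => x ∈ S), ∑ y ∈ (Ico A B).filter (fun y => y ∉ S),
              gpK (∏ i ∈ S, ω i) (∏ i ∈ insert y (S.erase x), ω i) *
              (F S - F (insert y (S.erase x))) ^ 2 := by rw [h2, h3]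
        _ = _ := by
            rw [sum_filter]
            apply sum_congr rfl
            intro x _
            by_cases hx : x ∈ S
            · rw [if_pos hx, sum_filter]
              apply sum_congr rfl
              intro y _
              by_cases hy : y ∈ S
              · rw [if_neg (by simpa using hy), if_neg (fun h => h.2 hy)]
              · rw [if_pos hy, if_pos ⟨hx, hy⟩]
            · rw [if_neg hx]
              symm
              apply sum_eq_zero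
              intro y _
              rw [if_neg (fun h => hx h.1)]
    rw [sum_congr rfl h1, sum_comm]
    apply sum_congr rfl
    intro x _
    rw [sum_comm]
    apply sum_congr rfl
    intro y _
    rw [sum_filter]
  rw [e1]
  calc _ ≤ ∑ x ∈ Ico A B, ∑ y ∈ Ico A B,
        ((B : ℝ) - A) ^ 3 * D ^ 2 * ∑ t ∈ Ico A (B - 1), gpE ω F A B j t := by
        apply sum_le_sum
        intro x hx
        apply sum_le_sum
        intro y hy
        exact gp_pair' hω hD0 hD F hx hy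
    _ = _ := by
        simp only [sum_const, Nat.card_Ico, nsmul_eq_mul]
        rw [Nat.cast_sub hAB]
        ring

end Pool.Agent.Helper98.EX
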